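import Pool.Agent.W363.JQ.Stm

set_option autoImplicit false
open Filter Topology Set Metric

/-! Project JQ, part TREE: the geometric coding tree. -/

namespace Pool.Agent.W585.JQ

open Pool.Agent.W363.JQ

lemma it_succ (f : Polynomial ℂ) (n : ℕ) (w : ℂ) : it f (n + 1) w = f.eval (it f n w) :=
  Function.iterate_succ_apply' _ n w

lemma it_succ' (f : Polynomial ℂ) (n : ℕ) (w : ℂ) : it f (n + 1) w = it f n (f.eval w) :=
  Function.iterate_succ_apply _ n w

lemma invJ_it {f : Polynomial ℂ} (hB : Bas f) (n : ℕ) (w : ℂ) : it f n w ∈ JJ f ↔ w ∈ JJ f := by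
  induction n with
  | zero => exact Iff.rfl
  | succ n ih => rw [it_succ, hB.invJ, ih]

lemma U_J {f : Polynomial ℂ} {U : Set ℂ} (op : IsOpen U) (sub : U ⊆ KK f) : ∀ u ∈ U, u ∉ JJ f := by
  intro u hu hJ
  have h1 : u ∈ interior (KK f) := interior_maximal sub op hu
  exact hJ.2 h1

lemma stay {f : Polynomial ℂ} {U : Set ℂ} (op : IsOpen U) (fr : frontier U ⊆ JJ f)
    {γ : ℝ → ℂ} (hc : ContinuousOn γ (Icc 0 1)) (h0 : γ 0 ∈ U)
    (hJ : ∀ t ∈ Icc (0 : ℝ) 1, γ t ∉ JJ f) : ∀ t ∈ Icc (0 : ℝ) 1, γ t ∈ U := by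
  have hp : IsPreconnected (γ '' Icc 0 1) := isPreconnected_Icc.image γ hc
  have h1 : γ '' Icc 0 1 ⊆ U := by
    apply hp.subset_left_of_subset_union op (isClosed_closure (s := U)).isOpen_compl
    · rw [Set.disjoint_compl_right_iff_subset]
      exact subset_closure
    · rintro _ ⟨t, ht, rfl⟩
      by_cases hm : γ t ∈ U
      · exact Or.inl hm
      · right
        intro hcl
        apply hJ t ht
        apply fr
        rw [frontier, op.interior_eq]
        exact ⟨hcl, hm⟩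
    · exact ⟨γ 0, ⟨0, by simp, rfl⟩, h0⟩
  exact fun t ht => h1 ⟨t, ht, rfl⟩

lemma der_ne {f : Polynomial ℂ} {r : ℝ} (hB : Bas f) (hE : Ex f r) {y : ℂ} (hy : y ∈ JJ f) :
    f.derivative.eval y ≠ 0 := by
  obtain ⟨hr, h⟩ := hE
  have hFy : f.eval y ∈ JJ f := (hB.invJ y).2 hy
  obtain ⟨g, hg, hg1, hg2, -⟩ := h _ hFy (f.eval y) (mem_ball_self hr) y rfl
  have h1 : HasDerivAt g (deriv g (f.eval y)) (f.eval y) :=
    (hg.differentiableAt (isOpen_ball.mem_nhds (mem_ball_self hr))).hasDerivAt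
  have h2 : HasDerivAt (fun w => f.eval w) (f.derivative.eval y) (g (f.eval y)) := by
    rw [hg1]
    exact f.hasDerivAt y
  have h3 := h2.comp (f.eval y) h1
  have h4 : HasDerivAt ((fun w => f.eval w) ∘ g) 1 (f.eval y) := by
    refine (hasDerivAt_id (f.eval y)).congr_of_eventuallyEq ?_
    filter_upwards [isOpen_ball.mem_nhds (mem_ball_self hr)] with u hu
    exact hg2 u hu
  have h5 := h3.unique h4
  intro h6
  rw [h6, zero_mul] at h5
  exact zero_ne_one h5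

lemma loc_inj {f : Polynomial ℂ} {y : ℂ} (hy : f.derivative.eval y ≠ 0) :
    ∀ᶠ p : ℂ × ℂ in 𝓝 (y, y), f.eval p.1 = f.eval p.2 → p.1 = p.2 := by
  have h1 : HasStrictDerivAt (fun w => f.eval w) (f.derivative.eval y) y := f.hasStrictDerivAt y
  have h2 := h1.isLittleO
  rw [Asymptotics.isLittleO_iff] at h2
  have hn : 0 < ‖f.derivative.eval y‖ := norm_pos_iff.2 hy
  filter_upwards [h2 (half_pos hn)] with p hp heq
  by_contra hne
  have h3 : 0 < ‖p.1 - p.2‖ := norm_pos_iff.2 (sub_ne_zero.2 hne)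
  rw [heq] at hp
  have h4 : ‖f.eval p.2 - f.eval p.2 - (ContinuousLinearMap.toSpanSingleton ℂ
      (f.derivative.eval y)) (p.1 - p.2)‖ = ‖p.1 - p.2‖ * ‖f.derivative.eval y‖ := by
    rw [sub_self, zero_sub, norm_neg, ContinuousLinearMap.toSpanSingleton_apply, smul_eq_mul,
      norm_mul]
  have h5 : ‖p.1 - p.2‖ * ‖f.derivative.eval y‖ ≤ ‖f.derivative.eval y‖ / 2 * ‖p.1 - p.2‖ := by
    rw [← h4]
    exact hp
  nlinarith [mul_pos h3 hn]

theorem tree (h1 : S_pcl) (h2 : S_shr) : S_tree := by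
  intro f r U A z₀ z c hB hD hA
  have hdeg : 1 ≤ f.natDegree := le_trans (by norm_num) hB.deg
  have hFc : Continuous (fun w : ℂ => f.eval w) := f.continuous
  have hcPC : ∀ i, ∀ t ∈ Icc (0 : ℝ) 1, c i t ∉ PC f := fun i t ht =>
    Set.disjoint_left.1 hA.Apc (hA.cA i t ht)
  have hz₀A : z₀ ∈ A := by
    rw [← hA.c0 true]
    exact hA.cA true 0 (by simp)
  -- lifts
  have hl : ∀ (n : ℕ) (i : Bool) (x : ℂ), it f n x = z₀ → ∃ γ : ℝ → ℂ,
      ContinuousOn γ (Icc 0 1) ∧ γ 0 = x ∧ (∀ t ∈ Icc (0 : ℝ) 1, it f n (γ t) = c i t) ∧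
      ∀ γ' : ℝ → ℂ, ContinuousOn γ' (Icc 0 1) → (∀ t ∈ Icc (0 : ℝ) 1, it f n (γ' t) = c i t) →
      (∃ t₀ ∈ Icc (0 : ℝ) 1, γ' t₀ = γ t₀) → ∀ t ∈ Icc (0 : ℝ) 1, γ' t = γ t := by
    intro n i x hx
    exact h1 f hdeg n (c i) (hA.ccont i) (hcPC i) x (by rw [hx, hA.c0])
  choose! lift hlc hl0 hlt hlu using hl
  obtain ⟨x, x0, xs⟩ : ∃ x : ℕ → (ℕ → Bool) → ℂ, (∀ ω, x 0 ω = z₀) ∧
      ∀ n ω, x (n + 1) ω = lift n (ω n) (x n ω) 1 :=
    ⟨fun n ω => Nat.rec z₀ (fun n y => lift n (ω n) y 1) n, fun _ => rfl, fun _ _ => rfl⟩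
  obtain ⟨Γ, hΓ⟩ : ∃ Γ : ℕ → (ℕ → Bool) → ℝ → ℂ, ∀ n ω, Γ n ω = lift n (ω n) (x n ω) :=
    ⟨_, fun _ _ => rfl⟩
  have m0 : (0 : ℝ) ∈ Icc (0 : ℝ) 1 := by simp
  have m1 : (1 : ℝ) ∈ Icc (0 : ℝ) 1 := by simp
  have itx : ∀ n ω, it f n (x n ω) = z₀ := by
    intro n
    induction n with
    | zero => intro ω; exact x0 ω
    | succ n ih =>
      intro ω
      rw [it_succ, xs, hlt n (ω n) (x n ω) (ih ω) 1 m1, hA.c1, hA.fz]
  have Γc : ∀ n ω, ContinuousOn (Γ n ω) (Icc 0 1) := fun n ω => by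
    rw [hΓ]; exact hlc n (ω n) (x n ω) (itx n ω)
  have Γ0 : ∀ n ω, Γ n ω 0 = x n ω := fun n ω => by rw [hΓ]; exact hl0 n (ω n) (x n ω) (itx n ω)
  have Γ1 : ∀ n ω, Γ n ω 1 = x (n + 1) ω := fun n ω => by rw [hΓ, xs]
  have Γt : ∀ n ω, ∀ t ∈ Icc (0 : ℝ) 1, it f n (Γ n ω t) = c (ω n) t :=
    fun n ω => by rw [hΓ]; exact hlt n (ω n) (x n ω) (itx n ω)
  have Γu : ∀ n ω (γ' : ℝ → ℂ), ContinuousOn γ' (Icc 0 1) →
      (∀ t ∈ Icc (0 : ℝ) 1, it f n (γ' t) = c (ω n) t) →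
      (∃ t₀ ∈ Icc (0 : ℝ) 1, γ' t₀ = Γ n ω t₀) → ∀ t ∈ Icc (0 : ℝ) 1, γ' t = Γ n ω t :=
    fun n ω => by rw [hΓ]; exact hlu n (ω n) (x n ω) (itx n ω)
  -- dependence on finitely many letters
  have xdep : ∀ n (ω ω' : ℕ → Bool), (∀ i < n, ω i = ω' i) → x n ω = x n ω' := by
    intro n
    induction n with
    | zero => intro ω ω' _; rw [x0, x0]
    | succ n ih =>
      intro ω ω' h
      rw [xs, xs, ih ω ω' (fun i hi => h i (by omega)), h n (by omega)]
  have Γdep : ∀ n (ω ω' : ℕ → Bool), (∀ i < n + 1, ω i = ω' i) → Γ n ω = Γ n ω' := by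
    intro n ω ω' h
    rw [hΓ, hΓ, xdep n ω ω' (fun i hi => h i (by omega)), h n (by omega)]
  -- membership
  have back : ∀ n, ∀ u ∈ U, it f n u ∈ A → u ∈ A := by
    intro n
    induction n with
    | zero => intro u _ h; exact h
    | succ n ih =>
      intro u hu h
      rw [it_succ'] at h
      exact hA.Aback u hu (ih _ (hD.map u hu) h)
  have ΓU : ∀ n ω, x n ω ∈ U → ∀ t ∈ Icc (0 : ℝ) 1, Γ n ω t ∈ U := by
    intro n ω hx
    apply stay hD.op hD.fr (Γc n ω)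
    · rw [Γ0]; exact hx
    · intro t ht hJ
      rw [← invJ_it hB n, Γt n ω t ht] at hJ
      exact U_J hD.op hD.sub _ (hA.AU (hA.cA _ t ht)) hJ
  have xU : ∀ n ω, x n ω ∈ U := by
    intro n
    induction n with
    | zero => intro ω; rw [x0]; exact hA.AU hz₀A
    | succ n ih =>
      intro ω
      rw [← Γ1]
      exact ΓU n ω (ih ω) 1 m1
  have ΓA : ∀ n ω, ∀ t ∈ Icc (0 : ℝ) 1, Γ n ω t ∈ A := by
    intro n ω t ht
    apply back n _ (ΓU n ω (xU n ω) t ht)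
    rw [Γt n ω t ht]
    exact hA.cA _ t ht
  -- semiconjugacy
  let σ : (ℕ → Bool) → (ℕ → Bool) := fun ω i => ω (i + 1)
  have key : ∀ n ω, f.eval (x (n + 1) ω) = x n (σ ω) ∧
      ∀ t ∈ Icc (0 : ℝ) 1, f.eval (Γ (n + 1) ω t) = Γ n (σ ω) t := by
    intro n
    induction n with
    | zero =>
      intro ω
      have h3 : f.eval (x (0 + 1) ω) = x 0 (σ ω) := by
        rw [← Γ1]
        have h4 := Γt 0 ω 1 m1
        change Γ 0 ω 1 = c (ω 0) 1 at h4
        rw [h4, hA.c1, hA.fz, x0]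
      refine ⟨h3, ?_⟩
      apply Γu 0 (σ ω) (fun t => f.eval (Γ (0 + 1) ω t)) (hFc.comp_continuousOn (Γc _ _))
      · intro t ht
        rw [← it_succ', Γt _ _ t ht]
      · refine ⟨0, m0, ?_⟩
        rw [Γ0, Γ0, h3]
    | succ n ih =>
      intro ω
      have h3 : f.eval (x (n + 1 + 1) ω) = x (n + 1) (σ ω) := by
        rw [← Γ1, ← Γ1]
        exact (ih ω).2 1 m1
      refine ⟨h3, ?_⟩
      apply Γu (n + 1) (σ ω) (fun t => f.eval (Γ (n + 1 + 1) ω t))
        (hFc.comp_continuousOn (Γc _ _))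
      · intro t ht
        rw [← it_succ', Γt _ _ t ht]
      · refine ⟨0, m0, ?_⟩
        rw [Γ0, Γ0, h3]
  -- distinct points
  have dist1 : ∀ n (ω ω' : ℕ → Bool), ω 0 ≠ ω' 0 → σ ω = σ ω' → x (n + 1) ω ≠ x (n + 1) ω' := by
    intro n
    induction n with
    | zero =>
      intro ω ω' h0 _ he
      rw [← Γ1, ← Γ1] at he
      have h4 := Γt 0 ω 1 m1
      have h5 := Γt 0 ω' 1 m1
      change Γ 0 ω 1 = c (ω 0) 1 at h4
      change Γ 0 ω' 1 = c (ω' 0) 1 at h5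
      rw [h4, h5, hA.c1, hA.c1] at he
      have hne := hA.ne
      rcases Bool.eq_false_or_eq_true (ω 0) with h6 | h6 <;>
      rcases Bool.eq_false_or_eq_true (ω' 0) with h7 | h7 <;> rw [h6, h7] at he h0
      · exact h0 rfl
      · exact hne he
      · exact hne he.symm
      · exact h0 rfl
    | succ m ih =>
      intro ω ω' h0 hs he
      rw [← Γ1, ← Γ1] at he
      apply ih ω ω' h0 hs
      have hc0 : ∀ t ∈ Icc (0 : ℝ) 1, Γ m (σ ω) t ∉ PC f := fun t ht =>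
        Set.disjoint_left.1 hA.Apc (ΓA m (σ ω) t ht)
      obtain ⟨γ, -, g0, -, gu⟩ := h1 f hdeg 1 (Γ m (σ ω)) (Γc _ _) hc0 (x (m + 1) ω) (by
        change f.eval (x (m + 1) ω) = _
        rw [(key m ω).1, Γ0])
      have e1 := gu (Γ (m + 1) ω) (Γc _ _) (fun t ht => (key m ω).2 t ht) ⟨0, m0, by rw [Γ0, g0]⟩
      have e2 := gu (Γ (m + 1) ω') (Γc _ _) (fun t ht => by
        rw [hs]
        exact (key m ω').2 t ht) ⟨1, m1, by rw [← he, e1 1 m1]⟩
      have e3 := e2 0 m0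
      rw [Γ0, g0] at e3
      exact e3.symm
  -- iterated semiconjugacy
  have keyit : ∀ (m n : ℕ) (ω : ℕ → Bool), ∀ t ∈ Icc (0 : ℝ) 1,
      it f m (Γ (n + m) ω t) = Γ n (fun i => ω (i + m)) t := by
    intro m
    induction m with
    | zero => intro n ω t _; rfl
    | succ m ih =>
      intro n ω t ht
      rw [it_succ', ← add_assoc, (key (n + m) ω).2 t ht, ih n (σ ω) t ht]
      congr 1
  obtain ⟨n0, hn0⟩ := hA.Aleave (r / 2) (by
    have := hD.ex.1
    linarith)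
  have hr : 0 < r := hD.ex.1
  -- common modulus of continuity
  have hmod : ∃ w : ℝ, 0 < w ∧ ∀ (ω : ℕ → Bool), ∀ s ∈ Icc (0 : ℝ) 1, ∀ t ∈ Icc (0 : ℝ) 1,
      |s - t| ≤ w → dist (Γ n0 ω s) (Γ n0 ω t) < r / 2 := by
    have hg : ∀ g : Fin (n0 + 1) → Bool, ∃ w : ℝ, 0 < w ∧ ∀ s ∈ Icc (0 : ℝ) 1, ∀ t ∈ Icc (0 : ℝ) 1,
      |s - t| ≤ w → dist (Γ n0 (fun i => if h : i < n0 + 1 then g ⟨i, h⟩ else false) s)
        (Γ n0 (fun i => if h : i < n0 + 1 then g ⟨i, h⟩ else false) t) < r / 2 := by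
      intro g
      have h3 := isCompact_Icc.uniformContinuousOn_of_continuous
        (Γc n0 (fun i => if h : i < n0 + 1 then g ⟨i, h⟩ else false))
      rw [Metric.uniformContinuousOn_iff] at h3
      obtain ⟨δ, hδ, h4⟩ := h3 (r / 2) (by linarith)
      refine ⟨δ / 2, by linarith, fun s hs t ht hst => h4 s hs t ht ?_⟩
      rw [Real.dist_eq]
      linarith
    choose w hw0 hw using hg
    refine ⟨Finset.univ.inf' ⟨fun _ => false, Finset.mem_univ _⟩ w, ?_, ?_⟩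
    · rw [Finset.lt_inf'_iff]
      exact fun g _ => hw0 g
    · intro ω s hs t ht hst
      have h5 : Γ n0 ω = Γ n0 (fun i => if h : i < n0 + 1 then
          (fun j : Fin (n0 + 1) => ω j) ⟨i, h⟩ else false) := by
        exact Γdep n0 ω _ (fun i hi => by rw [dif_pos hi])
      rw [h5]
      apply hw (fun j : Fin (n0 + 1) => ω j) s hs t ht
      exact hst.trans (Finset.inf'_le _ (Finset.mem_univ _))
  obtain ⟨w, hw0, hw⟩ := hmod
  set C1 : ℝ := ((1 - 0) / w + 1) * r with hC1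
  have hC1p : 0 < C1 := by positivity
  have step : ∀ (ω : ℕ → Bool) (m : ℕ), dist (x (n0 + m) ω) (x (n0 + m + 1) ω) ≤ C1 / 2 ^ m := by
    intro ω m
    have h3 := h2 f r hB hD.ex m 0 1 w (Γ (n0 + m) ω) (by norm_num) hw0 (Γc _ _) (by
      intro t ht
      rw [keyit m n0 ω t ht]
      apply hn0 n0 le_rfl _ (hA.AU (ΓA _ _ t ht))
      rw [Γt _ _ t ht]
      exact hA.cA _ t ht) (by
      intro s hs t ht hst
      rw [keyit m n0 ω s hs, keyit m n0 ω t ht]
      exact hw _ s hs t ht hst)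
    rw [Γ0, Γ1] at h3
    exact h3
  have step2 : ∀ (ω : ℕ → Bool) (m : ℕ),
      dist (x (n0 + m) ω) (x (n0 + (m + 1)) ω) ≤ (2 * C1) / 2 / 2 ^ m := by
    intro ω m
    have h3 := step ω m
    rw [← add_assoc]
    rw [mul_div_cancel_left₀ C1 (by norm_num : (2 : ℝ) ≠ 0)]
    exact h3
  have hlim : ∀ ω : ℕ → Bool, ∃ y, Tendsto (fun m => x (n0 + m) ω) atTop (𝓝 y) := fun ω =>
    cauchySeq_tendsto_of_complete (cauchySeq_of_le_geometric_two (step2 ω))
  choose Z hZ using hlim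
  have hZd : ∀ (ω : ℕ → Bool) (m : ℕ), dist (x (n0 + m) ω) (Z ω) ≤ (2 * C1) / 2 ^ m := fun ω m =>
    dist_le_of_le_geometric_two_of_tendsto (step2 ω) (hZ ω) m
  have hZJ : ∀ ω, Z ω ∈ JJ f := by
    intro ω
    rw [← hB.jcpt.isClosed.closure_eq, Metric.mem_closure_iff]
    intro ε hε
    obtain ⟨n1, hn1⟩ := hA.Aleave (ε / 2) (by linarith)
    have h3 : ∀ᶠ m in atTop, dist (x (n0 + m) ω) (Z ω) < ε / 2 :=
      (hZ ω).eventually (Metric.ball_mem_nhds _ (by linarith))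
    obtain ⟨m, hm, hm2⟩ := (h3.and (eventually_ge_atTop n1)).exists
    obtain ⟨y, hy, hy2⟩ := hn1 (n0 + m) (by omega) (x (n0 + m) ω) (xU _ _) (by
      rw [itx]
      exact hz₀A)
    refine ⟨y, hy, ?_⟩
    calc dist (Z ω) y ≤ dist (Z ω) (x (n0 + m) ω) + dist (x (n0 + m) ω) y := dist_triangle _ _ _
      _ < ε := by
        rw [dist_comm (Z ω)]
        linarith
  refine ⟨Z, ?_, ?_, ?_, ?_⟩
  · intro ω
    rw [frontier, hD.op.interior_eq]
    refine ⟨?_, fun hU => U_J hD.op hD.sub _ hU (hZJ ω)⟩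
    exact mem_closure_of_tendsto (hZ ω) (Eventually.of_forall fun m => xU _ _)
  · intro ω
    have h3 : Tendsto (fun m => x (n0 + (m + 1)) ω) atTop (𝓝 (Z ω)) :=
      (tendsto_add_atTop_iff_nat (f := fun m => x (n0 + m) ω) 1).2 (hZ ω)
    have h4 := (hFc.tendsto (Z ω)).comp h3
    have h5 : Tendsto (fun m => x (n0 + m) (σ ω)) atTop (𝓝 (f.eval (Z ω))) := by
      refine h4.congr (fun m => ?_)
      exact (key (n0 + m) ω).1
    exact tendsto_nhds_unique h5 (hZ (σ ω))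
  · refine ⟨(4 * C1 + Metric.diam (JJ f)) * 2 ^ n0, ?_, ?_⟩
    · have := Metric.diam_nonneg (s := JJ f)
      positivity
    · intro n ω ω' h
      have hdiam := Metric.diam_nonneg (s := JJ f)
      rcases le_or_gt n0 n with hn | hn
      · obtain ⟨m, rfl⟩ := Nat.exists_eq_add_of_le hn
        have h3 := hZd ω m
        have h4 := hZd ω' m
        rw [xdep _ ω ω' h] at h3
        have h5 : dist (Z ω) (Z ω') ≤ 4 * C1 / 2 ^ m := by
          calc dist (Z ω) (Z ω') ≤ dist (Z ω) (x (n0 + m) ω') + dist (x (n0 + m) ω') (Z ω') :=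
                dist_triangle _ _ _
            _ ≤ (2 * C1) / 2 ^ m + (2 * C1) / 2 ^ m := by
                rw [dist_comm (Z ω)]
                exact add_le_add h3 h4
            _ = _ := by ring
        have h6 : (4 * C1 + Metric.diam (JJ f)) * 2 ^ n0 / 2 ^ (n0 + m)
            = (4 * C1 + Metric.diam (JJ f)) / 2 ^ m := by
          rw [pow_add]
          field_simp
        rw [h6]
        refine h5.trans ?_
        apply div_le_div_of_nonneg_right _ (by positivity)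
        linarith
      · have h3 : dist (Z ω) (Z ω') ≤ Metric.diam (JJ f) :=
          Metric.dist_le_diam_of_mem hB.jcpt.isBounded (hZJ ω) (hZJ ω')
        rw [le_div_iff₀ (by positivity)]
        have h4 : (2 : ℝ) ^ n ≤ 2 ^ n0 := pow_le_pow_right₀ (by norm_num) hn.le
        calc dist (Z ω) (Z ω') * 2 ^ n ≤ Metric.diam (JJ f) * 2 ^ n0 :=
              mul_le_mul h3 h4 (by positivity) hdiam
          _ ≤ _ := by
              apply mul_le_mul_of_nonneg_right _ (by positivity)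
              linarith
  · intro ω ω' h0 hs he
    have hs' : σ ω = σ ω' := by
      funext i
      exact hs i
    have h3 := loc_inj (der_ne hB hD.ex (hZJ ω))
    have h4 : Tendsto (fun m => (x (n0 + (m + 1)) ω, x (n0 + (m + 1)) ω')) atTop (𝓝 (Z ω, Z ω)) := by
      rw [nhds_prod_eq]
      apply Tendsto.prodMk
      · exact (tendsto_add_atTop_iff_nat (f := fun m => x (n0 + m) ω) 1).2 (hZ ω)
      · rw [he]
        exact (tendsto_add_atTop_iff_nat (f := fun m => x (n0 + m) ω') 1).2 (hZ ω')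
    obtain ⟨m, hm⟩ := (h4.eventually h3).exists
    apply dist1 (n0 + m) ω ω' h0 hs'
    apply hm
    simp only
    rw [← add_assoc, (key (n0 + m) ω).1, (key (n0 + m) ω').1, hs']

end Pool.Agent.W585.JQ

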